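import Pool.Agent.N452.FF.Cov
import Pool.Agent.N452.TF.Core

set_option autoImplicit false

/-! # Few subfunctions of formulas of bilinear maps over a finite field -/

namespace Pool.Agent.N452.FF

open Finset
open Pool.Agent.N452.TF (Leaf Ext ext ovr ovr_of_mem ovr_of_not)

variable {K : Type} [Field K] [Fintype K] [DecidableEq K] {ι : Type} {D : ι → Type} {w q d e : ℕ}

namespace Fml

/-- The number of leaves which see a coordinate in `A`. -/
noncomputable def reads (A : Set ι) : Fml K ι D w q d e → ℕ
  | const _ => 0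
  | leaf L => L.reads A
  | act L F => L.reads A + F.reads A
  | add F G => F.reads A + G.reads A
  | bil _ F G => F.reads A + G.reads A
  | fn _ _ F => F.reads A
  | sym _ _ _ F => ∑ j, (F j).reads A

theorem sees_iff (A : Set ι) (F : Fml K ι D w q d e) : F.Sees A ↔ F.reads A ≠ 0 := by
  induction F with
  | const c => simp [Sees, reads]
  | leaf L => exact L.sees_iff A
  | act L F ih =>
    simp only [Sees, reads, ih, L.sees_iff A]
    omega
  | add F G ihF ihG =>
    simp only [Sees, reads, ihF, ihG]
    omega
  | bil b F G ihF ihG =>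
    simp only [Sees, reads, ihF, ihG]
    omega
  | fn l h F ih => exact ih
  | sym k l h F ih =>
    simp only [Sees, reads, ih, ne_eq, sum_eq_zero_iff, mem_univ, true_imp_iff, not_forall]

theorem eval_ovr (A : Set ι) (F : Fml K ι D w q d e) (h : F.reads A = 0) (a z : ∀ i, D i) :
    F.eval (ovr A a z) = F.eval z := by
  induction F with
  | const c => rfl
  | leaf L =>
    simp only [eval]
    exact L.val_ovr A (fun h9 => (L.sees_iff A).1 h9 h) a z
  | act L F ih =>
    simp only [reads] at h
    have hL : ¬ L.Sees A := fun h9 => (L.sees_iff A).1 h9 (by omega)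
    simp only [eval]
    rw [ih (by omega), L.val_ovr A hL]
  | add F G ihF ihG =>
    simp only [reads] at h
    simp only [eval]
    rw [ihF (by omega), ihG (by omega)]
  | bil b F G ihF ihG =>
    simp only [reads] at h
    simp only [eval]
    rw [ihF (by omega), ihG (by omega)]
  | fn l g F ih =>
    simp only [reads] at h
    simp only [eval]
    rw [ih h]
  | sym k l H F ih =>
    simp only [reads] at h
    simp only [eval]
    have h1 : ∀ j, (F j).eval (ovr A a z) = (F j).eval z := fun j =>
      ih j (by
        have := (sum_eq_zero_iff (s := univ) (f := fun j => (F j).reads A)).1 h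
        exact this j (mem_univ j))
    simp only [h1]

open Classical in
/-- The prices pay for the readings. -/
theorem sum_reads_le {ζ : Type} (I : Finset ζ) (A : ζ → Set ι) (c : ι → ℕ)
    (hc : ∀ j, (I.filter (fun i => j ∈ A i)).card ≤ c j) (F : Fml K ι D w q d e) :
    ∑ i ∈ I, F.reads (A i) ≤ F.size c := by
  induction F with
  | const c => simp [reads, size]
  | leaf L => exact L.sum_reads_le I A c hc
  | act L F ih =>
    have h1 := L.sum_reads_le I A c hc
    simp only [reads, size, sum_add_distrib]
    omega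
  | add F G ihF ihG =>
    simp only [reads, size, sum_add_distrib]
    omega
  | bil b F G ihF ihG =>
    simp only [reads, size, sum_add_distrib]
    omega
  | fn l g F ih => exact ih
  | sym k l H F ih =>
    simp only [reads, size]
    rw [sum_comm]
    calc ∑ j, ∑ i ∈ I, (F j).reads (A i) ≤ ∑ j, (F j).size c := sum_le_sum fun j _ => ih j
      _ ≤ _ := by omega

theorem reads_le_size (A : Set ι) (c : ι → ℕ) (hc : ∀ j ∈ A, 1 ≤ c j) (F : Fml K ι D w q d e) :
    F.reads A ≤ F.size c := by
  classical
  have h := sum_reads_le ({()} : Finset Unit) (fun _ => A) c (fun j => by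
    by_cases hj : j ∈ A
    · simpa [hj] using hc j hj
    · simp [hj]) F
  simpa using h

/-- The functions of the coordinates in `A`. -/
def Sub {Y : Type} (A : Set ι) (a : Y → ∀ i, D i) (F : Fml K ι D w q d e) : Set (Y → Fin d → K) :=
  {g | ∃ (z : ∀ i, D i) (u : (Fin d → K) → Fin d → K), Un e u ∧
    g = fun v => u (F.eval (ovr A (a v) z))}

theorem mem_sub_id {Y : Type} (A : Set ι) (a : Y → ∀ i, D i) (F : Fml K ι D w q d e) (z : ∀ i, D i) :
    (fun v => F.eval (ovr A (a v) z)) ∈ F.Sub A a := ⟨z, id, Un.id, rfl⟩

omit [Field K] [Fintype K] [DecidableEq K] in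
theorem base_bound {M B q w d e k : ℕ} (hM : 2 ≤ M) (hq : 1 ≤ q) (hk : 1 ≤ k)
    (hB : B = M * unCard k d e * k ^ d * q ^ (w - 1)) :
    M * unCard k d e ≤ B ∧ q ^ (w - 1) * k ^ d * unCard k d e ≤ B ∧ 1 ≤ B := by
  have h1 : 1 ≤ unCard k d e := by
    unfold unCard
    have : 1 ≤ k ^ (d ^ 2 + d) := Nat.one_le_pow _ _ hk
    omega
  have h3 : 1 ≤ q ^ (w - 1) := Nat.one_le_pow _ _ hq
  have h4 : 1 ≤ k ^ d := Nat.one_le_pow _ _ hk
  refine ⟨?_, ?_, ?_⟩
  · rw [hB, mul_assoc (M * unCard k d e)]
    exact Nat.le_mul_of_pos_right _ (by positivity)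
  · rw [hB]
    calc q ^ (w - 1) * k ^ d * unCard k d e = 1 * (q ^ (w - 1) * k ^ d * unCard k d e) := by ring
      _ ≤ M * (q ^ (w - 1) * k ^ d * unCard k d e) := Nat.mul_le_mul_right _ (by omega)
      _ = _ := by ring
  · rw [hB]
    exact Nat.succ_le_of_lt (by positivity)

open Classical in
theorem cov {Y : Type} [Fintype Y] (he : 1 ≤ e) (A : Set ι) (a : Y → ∀ i, D i) (c : ι → ℕ)
    (hc : ∀ j ∈ A, 1 ≤ c j) (s M B : ℕ) (hq : 1 ≤ q) (hM : 2 + s ≤ M)
    (hB : B = M * unCard (Fintype.card K) d e * Fintype.card K ^ d * q ^ (w - 1))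
    (F : Fml K ι D w q d e) (hs : F.size c ≤ s) (h : 1 ≤ F.reads A) :
    Cov (B ^ (2 * F.reads A - 1)) (F.Sub A a) := by
  have hk : 1 ≤ Fintype.card K := Fintype.card_pos
  obtain ⟨hB1, hB2, hB3⟩ := base_bound (M := M) (B := B) (q := q) (w := w) (d := d) (e := e)
    (by omega) hq hk hB
  obtain ⟨V, hV⟩ : ∃ V, V = unCard (Fintype.card K) d e := ⟨_, rfl⟩
  rw [← hV] at hB1 hB2
  have hVB : V ≤ B := (Nat.le_mul_of_pos_left _ (by omega)).trans hB1
  have hMp : 1 ≤ Fintype.card K ^ d := Nat.one_le_pow _ _ hk
  have hqp : 1 ≤ q ^ (w - 1) := Nat.one_le_pow _ _ hq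
  have hB4 : q ^ (w - 1) * V ≤ B := by
    refine le_trans ?_ hB2
    apply Nat.mul_le_mul_right
    exact Nat.le_mul_of_pos_right _ (by omega)
  -- the step for gates with two live children
  have step : ∀ r₁ r₂ : ℕ, 1 ≤ r₁ → 1 ≤ r₂ →
      B ^ (2 * r₁ - 1) * B ^ (2 * r₂ - 1) * V ≤ B ^ (2 * (r₁ + r₂) - 1) := by
    intro r₁ r₂ h₁ h₂
    rw [← pow_add]
    calc B ^ (2 * r₁ - 1 + (2 * r₂ - 1)) * V ≤ B ^ (2 * r₁ - 1 + (2 * r₂ - 1)) * B :=
          Nat.mul_le_mul_left _ hVB
      _ = B ^ (2 * (r₁ + r₂) - 1) := by
          rw [← pow_succ]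
          congr 1
          omega
  induction F with
  | const c => simp [reads] at h
  | leaf L =>
    have hL : L.Sees A := (L.sees_iff A).2 (by
      simp only [reads] at h
      omega)
    obtain ⟨κ, _, f, hκ, hf⟩ := L.family hq A a hL
    have h1 := (cov_of_finite f).un e
    rw [← hV] at h1
    have hr : (leaf L : Fml K ι D w q d e).reads A = 1 := L.reads_pos hL
    rw [hr]
    refine h1.mono ?_ ?_
    · rw [show 2 * 1 - 1 = 1 by norm_num, pow_one]
      exact (Nat.mul_le_mul_right _ hκ).trans hB4
    · rintro g ⟨z, u, hu, rfl⟩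
      obtain ⟨k, hk⟩ := hf z
      refine ⟨_, ⟨k, rfl⟩, u, hu, ?_⟩
      rw [← hk]
      rfl
  | act L F ih =>
    simp only [size] at hs
    simp only [reads] at h ⊢
    have r1 := F.reads_le_size A c hc
    by_cases hL : L.Sees A
    · obtain ⟨κ, _, f, hκ, hf⟩ := L.family hq A a hL
      rw [L.reads_pos hL]
      have r2 : 1 ≤ L.size c := by
        have h9 := L.sum_reads_le ({()} : Finset Unit) (fun _ => A) c (fun j => by
          by_cases hj : j ∈ A
          · simpa [hj] using hc j hj
          · simp [hj])
        rw [sum_singleton, L.reads_pos hL] at h9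
        exact h9
      by_cases hF : F.reads A = 0
      · have h1 := ((cov_const (K := K) (Y := Y) (d := d)).act f).un e
        rw [← hV] at h1
        rw [hF]
        refine h1.mono ?_ ?_
        · rw [show 2 * (1 + 0) - 1 = 1 by norm_num, pow_one]
          refine le_trans ?_ hB2
          apply Nat.mul_le_mul_right
          exact Nat.mul_le_mul_right _ hκ
        · rintro g ⟨z, u, hu, rfl⟩
          obtain ⟨k, hk⟩ := hf z
          refine ⟨_, ⟨k, _, ⟨F.eval z, rfl⟩, rfl⟩, u, hu, ?_⟩
          funext v
          simp only [eval]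
          rw [F.eval_ovr A hF, ← hk]
      · have h1 := ((ih (by omega) (by omega)).act f).un e
        rw [← hV] at h1
        refine h1.mono ?_ ?_
        · calc Fintype.card κ * B ^ (2 * F.reads A - 1) * V
              ≤ q ^ (w - 1) * B ^ (2 * F.reads A - 1) * V :=
                Nat.mul_le_mul_right _ (Nat.mul_le_mul_right _ hκ)
            _ = B ^ (2 * F.reads A - 1) * (q ^ (w - 1) * V) := by ring
            _ ≤ B ^ (2 * F.reads A - 1) * B := Nat.mul_le_mul_left _ hB4
            _ = B ^ (2 * F.reads A - 1 + 1) := (pow_succ _ _).symm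
            _ ≤ _ := Nat.pow_le_pow_right hB3 (by omega)
        · rintro g ⟨z, u, hu, rfl⟩
          obtain ⟨k, hk⟩ := hf z
          refine ⟨_, ⟨k, _, F.mem_sub_id A a z, rfl⟩, u, hu, ?_⟩
          funext v
          simp only [eval]
          rw [← hk]
    · rw [L.reads_zero hL] at h ⊢
      rw [zero_add] at h ⊢
      refine (ih (by omega) h).mono le_rfl ?_
      rintro g ⟨z, u, hu, rfl⟩
      refine ⟨z, _, hu.comp (L.val z) (fun _ => 0), ?_⟩
      funext v
      simp only [eval]
      rw [L.val_ovr A hL]
      congr 1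
      funext j
      rw [add_zero]
  | add F G ihF ihG =>
    simp only [size] at hs
    simp only [reads] at h ⊢
    by_cases hF : F.reads A = 0
    · have h1 := ihG (by omega) (by omega)
      rw [hF, zero_add]
      refine h1.mono le_rfl ?_
      rintro g ⟨z, u, hu, rfl⟩
      refine ⟨z, _, hu.comp (fun j a => if j = a then 1 else 0) (F.eval z), ?_⟩
      funext v
      simp only [eval]
      rw [F.eval_ovr A hF]
      congr 1
      funext j
      simp [add_comm]
    by_cases hG : G.reads A = 0
    · have h1 := ihF (by omega) (by omega)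
      rw [hG, add_zero]
      refine h1.mono le_rfl ?_
      rintro g ⟨z, u, hu, rfl⟩
      refine ⟨z, _, hu.comp (fun j a => if j = a then 1 else 0) (G.eval z), ?_⟩
      funext v
      simp only [eval]
      rw [G.eval_ovr A hG]
      congr 1
      funext j
      simp
    have r1 := F.reads_le_size A c hc
    have r2 := G.reads_le_size A c hc
    have h1 := ((ihF (by omega) (by omega)).prod (ihG (by omega) (by omega))
      (fun x y j => x j + y j)).un e
    rw [← hV] at h1
    refine h1.mono (step _ _ (by omega) (by omega)) ?_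
    rintro g ⟨z, u, hu, rfl⟩
    exact ⟨_, ⟨_, F.mem_sub_id A a z, _, G.mem_sub_id A a z, rfl⟩, u, hu, rfl⟩
  | bil b F G ihF ihG =>
    simp only [size] at hs
    simp only [reads] at h ⊢
    by_cases hF : F.reads A = 0
    · have h1 := ihG (by omega) (by omega)
      rw [hF, zero_add]
      refine h1.mono le_rfl ?_
      rintro g ⟨z, u, hu, rfl⟩
      refine ⟨z, _, hu.comp (fun j e => ∑ a, b a e j * F.eval z a) (fun _ => 0), ?_⟩
      funext v
      simp only [eval]
      rw [F.eval_ovr A hF]
      congr 1
      funext j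
      rw [sum_comm, add_zero]
      refine sum_congr rfl fun e _ => ?_
      rw [sum_mul]
      exact sum_congr rfl fun a _ => by ring
    by_cases hG : G.reads A = 0
    · have h1 := ihF (by omega) (by omega)
      rw [hG, add_zero]
      refine h1.mono le_rfl ?_
      rintro g ⟨z, u, hu, rfl⟩
      refine ⟨z, _, hu.comp (fun j a => ∑ e, b a e j * G.eval z e) (fun _ => 0), ?_⟩
      funext v
      simp only [eval]
      rw [G.eval_ovr A hG]
      congr 1
      funext j
      rw [add_zero]
      refine sum_congr rfl fun a _ => ?_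
      rw [sum_mul]
      exact sum_congr rfl fun e _ => by ring
    have r1 := F.reads_le_size A c hc
    have r2 := G.reads_le_size A c hc
    have h1 := ((ihF (by omega) (by omega)).prod (ihG (by omega) (by omega))
      (fun x y j => ∑ a, ∑ e, b a e j * (x a * y e))).un e
    rw [← hV] at h1
    refine h1.mono (step _ _ (by omega) (by omega)) ?_
    rintro g ⟨z, u, hu, rfl⟩
    exact ⟨_, ⟨_, F.mem_sub_id A a z, _, G.mem_sub_id A a z, rfl⟩, u, hu, rfl⟩
  | fn l g F ih =>
    simp only [size] at hs
    simp only [reads] at h ⊢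
    refine (ih hs h).mono le_rfl ?_
    rintro g' ⟨z, u, hu, rfl⟩
    exact ⟨z, _, Un.fn l g u, rfl⟩
  | sym k l H F ih =>
    simp only [size] at hs
    simp only [reads] at h ⊢
    have hsj : ∀ j, (F j).size c ≤ ∑ j, (F j).size c := fun j =>
      single_le_sum (f := fun j => (F j).size c) (fun _ _ => Nat.zero_le _) (mem_univ j)
    have hrj : ∀ j, (F j).reads A ≤ ∑ j, (F j).reads A := fun j =>
      single_le_sum (f := fun j => (F j).reads A) (fun _ _ => Nat.zero_le _) (mem_univ j)
    have hrs : ∑ j, (F j).reads A ≤ ∑ j, (F j).size c :=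
      sum_le_sum fun j _ => (F j).reads_le_size A c hc
    by_cases hA : ∃ j0, ∀ j, j ≠ j0 → (F j).reads A = 0
    · -- one live child
      obtain ⟨j0, hj0⟩ := hA
      have e : ∑ j, (F j).reads A = (F j0).reads A :=
        sum_eq_single j0 (fun j _ hj => hj0 j hj) (fun hj => absurd (mem_univ _) hj)
      rw [e] at h ⊢
      refine (ih j0 (by have := hsj j0; omega) h).mono le_rfl ?_
      rintro g ⟨z, u, hu, rfl⟩
      refine ⟨z, _, Un.bool he (l j0) (fun b => u (H ((univ.filter (fun j => j ≠ j0 ∧
        ∑ i, l j i * (F j).eval z i ≠ 0)).card + if b then 1 else 0))), ?_⟩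
      funext v
      simp only [eval, decide_eq_true_eq]
      congr 2
      have e2 : univ.filter (fun j => ∑ i, l j i * (F j).eval (ovr A (a v) z) i ≠ 0) =
          univ.filter (fun j => j ≠ j0 ∧ ∑ i, l j i * (F j).eval z i ≠ 0) ∪
          (if ∑ i, l j0 i * (F j0).eval (ovr A (a v) z) i ≠ 0 then {j0} else ∅) := by
        ext j
        rw [mem_filter, mem_union, mem_filter]
        by_cases hj : j = j0
        · subst hj
          split_ifs with h5 <;> simp [h5]
        · rw [(F j).eval_ovr A (hj0 j hj)]
          split_ifs <;> simp [hj]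
      rw [e2, card_union_of_disjoint]
      · congr 1
        split_ifs <;> simp
      · split_ifs
        · rw [disjoint_singleton_right]
          simp
        · simp
    · push Not at hA
      -- the Boolean functions of the children
      have hS : ∀ j, ∃ S : Finset (Y → Bool), S.card ≤ B ^ (2 * (F j).reads A - 1) ∧
          ∀ z, (fun v => decide ((F j).reads A ≠ 0 ∧
            ∑ i, l j i * (F j).eval (ovr A (a v) z) i ≠ 0)) ∈ S := by
        intro j
        by_cases hj : (F j).reads A = 0
        · refine ⟨{fun _ => false}, ?_, fun z => ?_⟩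
          · rw [card_singleton]
            exact Nat.one_le_pow _ _ hB3
          · rw [mem_singleton]
            funext v
            simp [hj]
        · have := hsj j
          have := hrj j
          obtain ⟨S, hS1, hS2⟩ := (ih j (by omega) (by omega)).bool (l j)
          refine ⟨S, hS1, fun z => ?_⟩
          have h9 := hS2 _ ((F j).mem_sub_id A a z)
          have e : (fun v => decide ((F j).reads A ≠ 0 ∧
              ∑ i, l j i * (F j).eval (ovr A (a v) z) i ≠ 0)) =
              fun v => decide (∑ i, l j i * (F j).eval (ovr A (a v) z) i ≠ 0) := by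
            funext v
            rw [Bool.eq_iff_iff, decide_eq_true_iff, decide_eq_true_iff]
            simp [hj]
          rw [e]
          exact h9
      choose S hS1 hS2 using hS
      obtain ⟨f, hf⟩ : ∃ f : (Fin (k + 1) × ((j : Fin k) → {x : Y → Bool // x ∈ S j})) → Y →
          Fin d → K, ∀ (c : Fin (k + 1) × ((j : Fin k) → {x : Y → Bool // x ∈ S j})) (v : Y),
            f c v = H (c.1.val + (univ.filter (fun j : Fin k => (c.2 j).1 v = true)).card) :=
        ⟨fun c v => H (c.1.val + (univ.filter (fun j : Fin k => (c.2 j).1 v = true)).card),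
          fun _ _ => rfl⟩
      have h1 := (cov_of_finite f).un e
      rw [← hV] at h1
      have hcard : 2 ≤ (univ.filter (fun j => (F j).reads A ≠ 0)).card := by
        obtain ⟨j1, hj1⟩ : ∃ j1, (F j1).reads A ≠ 0 := by
          by_contra hc
          push Not at hc
          simp [hc] at h
        obtain ⟨j2, hj2, hj3⟩ := hA j1
        have : ({j1, j2} : Finset (Fin k)) ⊆ univ.filter (fun j => (F j).reads A ≠ 0) := by
          intro j hj
          rw [mem_insert, mem_singleton] at hj
          rw [mem_filter]
          rcases hj with rfl | rfl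
          · exact ⟨mem_univ _, hj1⟩
          · exact ⟨mem_univ _, hj3⟩
        have h3 := card_le_card this
        rwa [card_pair hj2.symm] at h3
      have hsum : ∑ j, (2 * (F j).reads A - 1) + 2 ≤ 2 * ∑ j, (F j).reads A := by
        have e3 : ∀ j, 2 * (F j).reads A - 1 + (if (F j).reads A ≠ 0 then 1 else 0) =
            2 * (F j).reads A := by
          intro j
          split_ifs with h5 <;> omega
        have e4 : ∑ j, (2 * (F j).reads A - 1) + (univ.filter (fun j => (F j).reads A ≠ 0)).card =
            2 * ∑ j, (F j).reads A := by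
          rw [card_filter, ← sum_add_distrib, mul_sum]
          exact sum_congr rfl fun j _ => e3 j
        omega
      refine h1.mono ?_ ?_
      · rw [Fintype.card_prod, Fintype.card_fin, Fintype.card_pi]
        simp only [Fintype.card_coe]
        calc (k + 1) * (∏ j, (S j).card) * V
            ≤ M * (∏ j, B ^ (2 * (F j).reads A - 1)) * V := by
              apply Nat.mul_le_mul_right
              exact Nat.mul_le_mul (by omega) (prod_le_prod' fun j _ => hS1 j)
          _ = B ^ (∑ j, (2 * (F j).reads A - 1)) * (M * V) := by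
              rw [prod_pow_eq_pow_sum]
              ring
          _ ≤ B ^ (∑ j, (2 * (F j).reads A - 1)) * B := Nat.mul_le_mul_left _ hB1
          _ = B ^ (∑ j, (2 * (F j).reads A - 1) + 1) := by rw [pow_succ]
          _ ≤ B ^ (2 * ∑ j, (F j).reads A - 1) := Nat.pow_le_pow_right hB3 (by omega)
      · rintro g ⟨z, u, hu, rfl⟩
        refine ⟨fun v => (sym k l H F).eval (ovr A (a v) z), ?_, u, hu, rfl⟩
        refine ⟨(⟨(univ.filter (fun j => (F j).reads A = 0 ∧
          ∑ i, l j i * (F j).eval z i ≠ 0)).card, ?_⟩, fun j => ⟨_, hS2 j z⟩), ?_⟩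
        · have := card_filter_le (univ : Finset (Fin k))
            (fun j => (F j).reads A = 0 ∧ ∑ i, l j i * (F j).eval z i ≠ 0)
          rw [card_univ, Fintype.card_fin] at this
          omega
        · funext v
          rw [hf]
          simp only [eval, decide_eq_true_eq]
          congr 1
          have e2 : univ.filter (fun j => ∑ i, l j i * (F j).eval (ovr A (a v) z) i ≠ 0) =
              univ.filter (fun j => (F j).reads A = 0 ∧ ∑ i, l j i * (F j).eval z i ≠ 0) ∪
              univ.filter (fun j => (F j).reads A ≠ 0 ∧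
                ∑ i, l j i * (F j).eval (ovr A (a v) z) i ≠ 0) := by
            ext j
            rw [mem_filter, mem_union, mem_filter, mem_filter]
            by_cases hj : (F j).reads A = 0
            · rw [(F j).eval_ovr A hj]
              simp [hj]
            · simp [hj]
          rw [e2, card_union_of_disjoint]
          rw [disjoint_filter]
          rintro j - ⟨h5, -⟩ ⟨h6, -⟩
          exact h6 h5

open Classical in
/-- Few subfunctions. -/
theorem subfunctions {Y : Type} [Fintype Y] (he : 1 ≤ e) (A : Set ι) (a : Y → ∀ i, D i)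
    (c : ι → ℕ) (hc : ∀ j ∈ A, 1 ≤ c j) (s M B : ℕ) (hq : 1 ≤ q) (hM : 2 + s ≤ M)
    (hB : B = M * unCard (Fintype.card K) d e * Fintype.card K ^ d * q ^ (w - 1)) (F : Fml K ι D w q d e)
    (hs : F.size c ≤ s) :
    ∃ S : Finset (Y → Bool), S.card ≤ 2 * B ^ (2 * F.reads A) ∧
      ∀ z : (∀ i, D i), (fun v => F.accepts (ovr A (a v) z)) ∈ S := by
  obtain ⟨hB1, hB2, hB3⟩ := base_bound (M := M) (B := B) (q := q) (w := w) (d := d) (e := e)
    (by omega) hq Fintype.card_pos hB
  by_cases h : F.reads A = 0
  · refine ⟨(univ : Finset Bool).image (fun c => fun _ => c), ?_, fun z => ?_⟩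
    · refine card_image_le.trans ?_
      simp [h]
    · rw [mem_image]
      refine ⟨F.accepts z, mem_univ _, ?_⟩
      funext v
      unfold accepts
      rw [F.eval_ovr A h]
  · have hr := F.reads_le_size A c hc
    obtain ⟨S, h1, h2⟩ := (F.cov he A a c hc s M B hq hM hB hs (by omega)).bool (fun _ => 1)
    refine ⟨S, h1.trans ?_, fun z => ?_⟩
    · calc B ^ (2 * F.reads A - 1) ≤ B ^ (2 * F.reads A) :=
          Nat.pow_le_pow_right hB3 (by omega)
        _ ≤ 2 * B ^ (2 * F.reads A) := by omega
    · have h9 := h2 _ (F.mem_sub_id A a z)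
      simp only [one_mul] at h9
      exact h9

end Fml

end Pool.Agent.N452.FF
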