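import Pool.Agent.N452.FF.Defs

set_option autoImplicit false

/-! # Small families of functions with values in `K ^ d` -/

namespace Pool.Agent.N452.FF

open Finset

variable {K : Type} [Field K] [Fintype K] [DecidableEq K] {d e : ℕ}

/-- affine maps, and functions of `e` linear forms -/
def Un (e : ℕ) (u : (Fin d → K) → Fin d → K) : Prop :=
  (∃ (A : Fin d → Fin d → K) (b : Fin d → K), u = fun x j => ∑ a, A j a * x a + b j) ∨
    ∃ (c : Fin e → Fin d → K) (h : (Fin e → K) → Fin d → K),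
      u = fun x => h (fun a => ∑ j, c a j * x j)

omit [Fintype K] [DecidableEq K] in
theorem Un.id : Un e (K := K) (d := d) id := by
  classical
  refine Or.inl ⟨fun j a => if j = a then 1 else 0, fun _ => 0, ?_⟩
  funext x j
  simp

omit [Fintype K] [DecidableEq K] in
theorem Un.comp {u : (Fin d → K) → Fin d → K} (h : Un e u) (A : Fin d → Fin d → K)
    (b : Fin d → K) : Un e (fun x => u (fun j => ∑ a, A j a * x a + b j)) := by
  rcases h with ⟨A', b', rfl⟩ | ⟨c, h, rfl⟩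
  · refine Or.inl ⟨fun j a => ∑ k, A' j k * A k a, fun j => ∑ k, A' j k * b k + b' j, ?_⟩
    funext x j
    simp only [mul_add, sum_add_distrib, mul_sum, sum_mul]
    rw [sum_comm]
    simp only [mul_assoc]
    ring
  · refine Or.inr ⟨fun i a => ∑ k, c i k * A k a, fun y => h (fun i => y i + ∑ k, c i k * b k), ?_⟩
    funext x
    have h1 : ∀ i : Fin e, ∑ k, c i k * (∑ a, A k a * x a + b k) =
        ∑ a, (∑ k, c i k * A k a) * x a + ∑ k, c i k * b k := by
      intro i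
      simp only [mul_add, sum_add_distrib, mul_sum, sum_mul]
      rw [sum_comm]
      simp only [mul_assoc]
    simp only [h1]

omit [Fintype K] in
theorem Un.bool (he : 1 ≤ e) (l : Fin d → K) (φ : Bool → Fin d → K) :
    Un e (fun x => φ (decide (∑ a, l a * x a ≠ 0))) := by
  refine Or.inr ⟨fun _ => l, fun y => φ (decide (y ⟨0, he⟩ ≠ 0)), rfl⟩

omit [Fintype K] [DecidableEq K] in
theorem Un.fn (l : Fin e → Fin d → K) (h : (Fin e → K) → Fin d → K)
    (u : (Fin d → K) → Fin d → K) : Un e (fun x => u (h (fun a => ∑ j, l a j * x j))) :=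
  Or.inr ⟨l, fun y => u (h y), rfl⟩

variable {Y : Type} {W W' : ℕ} {𝒢 𝒢' : Set (Y → Fin d → K)}

/-- The set `𝒢` is contained in a set of `W` functions. -/
def Cov (W : ℕ) (𝒢 : Set (Y → Fin d → K)) : Prop :=
  ∃ S : Finset (Y → Fin d → K), S.card ≤ W ∧ ∀ g ∈ 𝒢, g ∈ S

omit [Field K] [Fintype K] [DecidableEq K] in
theorem Cov.mono (h : Cov W 𝒢) (hW : W ≤ W') (hG : 𝒢' ⊆ 𝒢) : Cov W' 𝒢' := by
  obtain ⟨S, h1, h2⟩ := h
  exact ⟨S, h1.trans hW, fun g hg => h2 g (hG hg)⟩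

omit [Field K] [Fintype K] [DecidableEq K] in
theorem cov_of_finite {κ : Type} [Fintype κ] (f : κ → Y → Fin d → K) :
    Cov (Fintype.card κ) (Set.range f) := by
  classical
  refine ⟨univ.image f, card_image_le, ?_⟩
  rintro g ⟨k, rfl⟩
  exact mem_image_of_mem _ (mem_univ k)

omit [Field K] [DecidableEq K] in
/-- constant functions -/
theorem cov_const : Cov (Fintype.card K ^ d)
    {g : Y → Fin d → K | ∃ θ : Fin d → K, g = fun _ => θ} := by
  have h := cov_of_finite (fun (θ : Fin d → K) (_ : Y) => θ)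
  refine h.mono ?_ ?_
  · rw [Fintype.card_fun, Fintype.card_fin]
  · rintro g ⟨θ, rfl⟩
    exact ⟨θ, rfl⟩

omit [Fintype K] [DecidableEq K] in
/-- matrices from a finite family which are applied to the functions of a family -/
theorem Cov.act {κ : Type} [Fintype κ] (f : κ → Y → Fin d → Fin d → K) (h : Cov W 𝒢) :
    Cov (Fintype.card κ * W)
      {g' | ∃ k, ∃ g ∈ 𝒢, g' = fun v j => ∑ a, f k v j a * g v a} := by
  classical
  obtain ⟨S, h1, h2⟩ := h
  refine ⟨((univ : Finset κ) ×ˢ S).image (fun p => fun v j => ∑ a, f p.1 v j a * p.2 v a), ?_, ?_⟩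
  · refine card_image_le.trans ?_
    rw [card_product, card_univ]
    exact Nat.mul_le_mul_left _ h1
  · rintro g' ⟨k, g, hg, rfl⟩
    exact mem_image.2 ⟨(k, g), mem_product.2 ⟨mem_univ _, h2 g hg⟩, rfl⟩

omit [Field K] [Fintype K] [DecidableEq K] in
/-- functions of two functions -/
theorem Cov.prod {W₁ W₂ : ℕ} {𝒢₁ 𝒢₂ : Set (Y → Fin d → K)} (h₁ : Cov W₁ 𝒢₁)
    (h₂ : Cov W₂ 𝒢₂) (φ : (Fin d → K) → (Fin d → K) → Fin d → K) :
    Cov (W₁ * W₂) {g | ∃ g₁ ∈ 𝒢₁, ∃ g₂ ∈ 𝒢₂, g = fun v => φ (g₁ v) (g₂ v)} := by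
  classical
  obtain ⟨S₁, a1, a2⟩ := h₁
  obtain ⟨S₂, b1, b2⟩ := h₂
  refine ⟨(S₁ ×ˢ S₂).image (fun p => fun v => φ (p.1 v) (p.2 v)), ?_, ?_⟩
  · refine card_image_le.trans ?_
    rw [card_product]
    exact Nat.mul_le_mul a1 b1
  · rintro g ⟨g₁, hg₁, g₂, hg₂, rfl⟩
    exact mem_image.2 ⟨(g₁, g₂), mem_product.2 ⟨a2 g₁ hg₁, b2 g₂ hg₂⟩, rfl⟩

omit [Fintype K] in
open Classical in
/-- few Boolean functions -/
theorem Cov.bool (h : Cov W 𝒢) (l : Fin d → K) :
    ∃ S : Finset (Y → Bool), S.card ≤ W ∧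
      ∀ g ∈ 𝒢, (fun v => decide (∑ j, l j * g v j ≠ 0)) ∈ S := by
  obtain ⟨S, h1, h2⟩ := h
  refine ⟨S.image (fun g => fun v => decide (∑ j, l j * g v j ≠ 0)), card_image_le.trans h1, ?_⟩
  intro g hg
  exact mem_image_of_mem _ (h2 g hg)

/-- the number of the maps in `Un` -/
def unCard (k d e : ℕ) : ℕ := k ^ (d ^ 2 + d) + k ^ (e * d + d * k ^ e)

omit [DecidableEq K] in
open Classical in
/-- composition with unary functions -/
theorem Cov.un (h : Cov W 𝒢) (e : ℕ) :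
    Cov (W * unCard (Fintype.card K) d e)
      {g' | ∃ g ∈ 𝒢, ∃ u, Un e u ∧ g' = fun v => u (g v)} := by
  obtain ⟨S, h1, h2⟩ := h
  refine ⟨(S ×ˢ (univ : Finset (((Fin d → Fin d → K) × (Fin d → K)) ⊕
    ((Fin e → Fin d → K) × ((Fin e → K) → Fin d → K))))).image (fun p => match p.2 with
      | .inl u => fun v j => ∑ a, u.1 j a * p.1 v a + u.2 j
      | .inr u => fun v => u.2 (fun a => ∑ j, u.1 a j * p.1 v j)), ?_, ?_⟩
  · refine card_image_le.trans ?_
    rw [card_product, card_univ, Fintype.card_sum, Fintype.card_prod, Fintype.card_prod]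
    simp only [Fintype.card_fun, Fintype.card_fin]
    refine Nat.mul_le_mul h1 (le_of_eq ?_)
    unfold unCard
    rw [← pow_mul, ← pow_mul, ← pow_mul, ← pow_add, ← pow_add]
    congr 2
    · ring
    · ring
  · rintro g' ⟨g, hg, u, hu, rfl⟩
    rcases hu with ⟨A, b, rfl⟩ | ⟨c, h, rfl⟩
    · exact mem_image.2 ⟨(g, Sum.inl (A, b)), mem_product.2 ⟨h2 g hg, mem_univ _⟩, rfl⟩
    · exact mem_image.2 ⟨(g, Sum.inr (c, h)), mem_product.2 ⟨h2 g hg, mem_univ _⟩, rfl⟩

end Pool.Agent.N452.FF
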