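import Pool.Agent.N452.TF.Defs

set_option autoImplicit false

/-! # Formulas of bilinear maps over a finite field, branching programs, and circuits of shared bits

The wires of a formula carry vectors of dimension `d` over a finite field `K`; a gate may apply any
bilinear map to two vectors, or a matrix which depends on the input to one vector. Products of
matrices of order `d` and the contraction trees of tensor networks over `K` are formulas of this
kind. -/

namespace Pool.Agent.N452.FF

open Finset
open Pool.Agent.N452.TF (Leaf Ext ext)

/-- Formulas whose values are vectors in `K ^ d`: constants, leaves with vectors as values, gates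
`act` which apply a matrix to a vector (the matrix is the value of a leaf), sums, arbitrary bilinear
maps of two vectors (given by their tensors), gates `fn` which apply an arbitrary function to the
values of `e` linear forms, and gates `sym` of any fan-in `k` whose value is an arbitrary function
of the number of the inputs for which a linear form is not zero. -/
inductive Fml (K ι : Type) (D : ι → Type) (w q d e : ℕ) : Type
  | const : (Fin d → K) → Fml K ι D w q d e
  | leaf : Leaf ι D w q (Fin d → K) → Fml K ι D w q d e
  | act : Leaf ι D w q (Fin d → Fin d → K) → Fml K ι D w q d e → Fml K ι D w q d e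
  | add : Fml K ι D w q d e → Fml K ι D w q d e → Fml K ι D w q d e
  | bil : (Fin d → Fin d → Fin d → K) → Fml K ι D w q d e → Fml K ι D w q d e →
      Fml K ι D w q d e
  | fn : (Fin e → Fin d → K) → ((Fin e → K) → Fin d → K) → Fml K ι D w q d e →
      Fml K ι D w q d e
  | sym : (k : ℕ) → (Fin k → Fin d → K) → (ℕ → Fin d → K) → (Fin k → Fml K ι D w q d e) →
      Fml K ι D w q d e

namespace Fml

variable {K ι : Type} [Field K] [DecidableEq K] {D : ι → Type} {w q d e : ℕ}

/-- The value of the formula. -/
def eval : Fml K ι D w q d e → (∀ i, D i) → Fin d → K
  | const c, _ => c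
  | leaf L, x => L.val x
  | act L F, x => fun j => ∑ a, L.val x j a * F.eval x a
  | add F G, x => fun j => F.eval x j + G.eval x j
  | bil b F G, x => fun j => ∑ a, ∑ c, b a c j * (F.eval x a * G.eval x c)
  | fn l h F, x => h (fun a => ∑ j, l a j * F.eval x j)
  | sym _ l h F, x => h (univ.filter (fun i => ∑ j, l i j * (F i).eval x j ≠ 0)).card

omit [Field K] [DecidableEq K] in
/-- The size, if a reading of the coordinate `i` costs `c i`; the wires which lead to gates `sym`
are counted, too. -/
def size (c : ι → ℕ) : Fml K ι D w q d e → ℕ
  | const _ => 0
  | leaf L => L.size c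
  | act L F => L.size c + F.size c
  | add F G => F.size c + G.size c
  | bil _ F G => F.size c + G.size c
  | fn _ _ F => F.size c
  | sym k _ _ F => k + ∑ j, (F j).size c

omit [Field K] [DecidableEq K] in
/-- Does some leaf see a coordinate in the set `A`? -/
def Sees (A : Set ι) : Fml K ι D w q d e → Prop
  | const _ => False
  | leaf L => L.Sees A
  | act L F => L.Sees A ∨ F.Sees A
  | add F G => F.Sees A ∨ G.Sees A
  | bil _ F G => F.Sees A ∨ G.Sees A
  | fn _ _ F => F.Sees A
  | sym _ _ _ F => ∃ j, (F j).Sees A

/-- The formula accepts the input if the sum of the coordinates of its value is not zero. -/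
def accepts (F : Fml K ι D w q d e) (x : ∀ i, D i) : Bool :=
  decide (∑ j, F.eval x j ≠ 0)

end Fml

/-- Branching programs with `n` inner nodes. The nodes are numbered: `0` and `1` are the two sinks,
`2, 3, …, n + 1` are the inner nodes. An inner node is labelled with a formula, and its two
successors are nodes with smaller numbers. -/
inductive BP (K ι : Type) (D : ι → Type) (w q d e : ℕ) : ℕ → Type
  | sinks : BP K ι D w q d e 0
  | node : {n : ℕ} → BP K ι D w q d e n → Fml K ι D w q d e → (no yes : Fin (n + 2)) →
      BP K ι D w q d e (n + 1)

namespace BP

variable {K ι : Type} {D : ι → Type} {w q d e : ℕ}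

/-- The value of the sink which is reached from a node (`0` rejects, `1` accepts). An inner node
leads to its successor `yes` if its formula accepts the input. -/
def val [Field K] [DecidableEq K] : {n : ℕ} → BP K ι D w q d e n → (∀ i, D i) → Fin (n + 2) → Bool
  | _, sinks, _, v => decide (v = 1)
  | _, node B F no yes, x, v =>
      Fin.lastCases (motive := fun _ => Bool) (if F.accepts x then B.val x yes else B.val x no)
        (fun u => B.val x u) v

/-- The size: the number of the inner nodes plus the sizes of all formulas. -/
def size (c : ι → ℕ) : {n : ℕ} → BP K ι D w q d e n → ℕ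
  | _, sinks => 0
  | _, node B F _ _ => B.size c + (F.size c + 1)

/-- Does some leaf see a coordinate in the set `A`? -/
def Sees (A : Set ι) : {n : ℕ} → BP K ι D w q d e n → Prop
  | _, sinks => False
  | _, node B F _ _ => B.Sees A ∨ F.Sees A

end BP

/-- A branching program with a start node. -/
structure Program (K ι : Type) (D : ι → Type) (w q d e : ℕ) where
  /-- number of inner nodes -/
  nodes : ℕ
  bp : BP K ι D w q d e nodes
  start : Fin (nodes + 2)

/-- The result of the computation. -/
def Program.eval {K ι : Type} [Field K] [DecidableEq K] {D : ι → Type} {w q d e : ℕ}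
    (B : Program K ι D w q d e) (x : ∀ i, D i) : Bool :=
  B.bp.val x B.start

/-- Circuits with `m` shared bits: every bit is computed by a branching program from the items and
the bits before it. -/
inductive Circ (K ι : Type) (D : ι → Type) (w q d e : ℕ) : ℕ → Type
  | nil : Circ K ι D w q d e 0
  | snoc : {m : ℕ} → Circ K ι D w q d e m → Program K (ι ⊕ Fin m) (Ext D m) w q d e →
      Circ K ι D w q d e (m + 1)

namespace Circ

variable {K ι : Type} {D : ι → Type} {w q d e : ℕ}

/-- The values of the bits. -/
def val [Field K] [DecidableEq K] : {m : ℕ} → Circ K ι D w q d e m → (∀ i, D i) → Fin m → Bool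
  | _, nil, _ => fun j => j.elim0
  | _, snoc C P, x => Fin.lastCases (motive := fun _ => Bool) (P.eval (ext x (C.val x)))
      (fun j => C.val x j)

/-- The items and bits which depend on the item `i`: the item itself, and the bits whose programs
see the item or an earlier bit which depends on it. -/
def Dep (i : ι) : {m : ℕ} → Circ K ι D w q d e m → Set (ι ⊕ Fin m)
  | _, nil => {Sum.inl i}
  | _, snoc (m := m) C P => fun a => a = Sum.inl i ∨
      (∃ j : Fin m, a = Sum.inr j.castSucc ∧ Sum.inr j ∈ Dep i C) ∨
      (a = Sum.inr (Fin.last m) ∧ P.bp.Sees (Dep i C))

open Classical in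
/-- The price of an item or a bit: the number of the items in `I` on which it depends. -/
noncomputable def price (I : Finset ι) {m : ℕ} (C : Circ K ι D w q d e m) (a : ι ⊕ Fin m) : ℕ :=
  (I.filter (fun i => a ∈ C.Dep i)).card

/-- The cost: the inner nodes of all programs, the wires which lead to gates `sym`, and the
prices of all items and bits which are seen by the leaves. -/
noncomputable def cost (I : Finset ι) : {m : ℕ} → Circ K ι D w q d e m → ℕ
  | _, nil => 0
  | _, snoc C P => C.cost I + P.bp.size (C.price I)

end Circ

/-- A circuit whose last bit is the output. -/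
structure Circuit (K ι : Type) (D : ι → Type) (w q d e : ℕ) where
  /-- number of shared bits before the output -/
  bits : ℕ
  circ : Circ K ι D w q d e (bits + 1)

/-- The output of the circuit. -/
def Circuit.eval {K ι : Type} [Field K] [DecidableEq K] {D : ι → Type} {w q d e : ℕ}
    (C : Circuit K ι D w q d e) (x : ∀ i, D i) : Bool :=
  C.circ.val x (Fin.last _)

end Pool.Agent.N452.FF
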