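import Pool.Agent.N452.FF.Prog
import Pool.Agent.Y638.RF.Lower

set_option autoImplicit false

/-! # The lower bound for random circuits -/

namespace Pool.Agent.N452.FF

open Finset Pool.Agent.TH697.Form Pool.Agent.TH697.Row Pool.Agent.Y638.RF

variable {K : Type} [Field K] [Fintype K] [DecidableEq K] {ι : Type} {D : ι → Type}
  [DecidableEq ι] {w q d e : ℕ}

variable {T : Type} [Fintype T] {Ω : Type} [Fintype Ω]

/-- The lower bound for random circuits with shared bits. -/
theorem circuit_lower (μ : Ω → ℝ) (hμ : IsProb μ) (s : ℕ) (C : Ω → Circuit K ι D w q d e)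
    (P : (∀ i, D i) → Prop) (f : (∀ i, D i) → Bool)
    (hF : ApproximatesOn μ (fun ω => (C ω).eval) P f)
    (he : 1 ≤ e) (hq : 1 ≤ q) (hw : 1 ≤ w) (N : ℕ) (δ : ℝ)
    (I : Finset ι) (hs : ∀ ω, (C ω).circ.cost I ≤ s) (h : ∀ i ∈ I, Asks T N δ P f i) :
    (I.card : ℝ) * ((49 / 600 - δ) * Fintype.card T - 1) ≤
      (3 + 5 * Real.logb 2 (2 + s : ℕ) +
        2 * ((d : ℝ) * (d + Fintype.card K ^ e + e + 2)) * Real.logb 2 (Fintype.card K) +
        2 * (w - 1) * Real.logb 2 q) * s := by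
  classical
  obtain ⟨M, hM⟩ : ∃ M, M = 2 + s := ⟨_, rfl⟩
  obtain ⟨k, hk⟩ : ∃ k, k = Fintype.card K := ⟨_, rfl⟩
  have hk1 : 1 ≤ k := by
    rw [hk]
    exact Fintype.card_pos
  rw [← hM, ← hk]
  have h6 : (0 : ℝ) < Real.log 2 := Real.log_pos (by norm_num)
  have hlq : 0 ≤ Real.log (q : ℝ) := Real.log_nonneg (by exact_mod_cast hq)
  have hlk : 0 ≤ Real.log (k : ℝ) := Real.log_nonneg (by exact_mod_cast hk1)
  have hlM : 0 ≤ Real.log (M : ℝ) := Real.log_nonneg (by exact_mod_cast (by omega : 1 ≤ M))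
  have hw' : ((w - 1 : ℕ) : ℝ) = (w : ℝ) - 1 := by
    rw [Nat.cast_sub hw, Nat.cast_one]
  have hw1 : (0 : ℝ) ≤ (w : ℝ) - 1 := by rw [← hw']; positivity
  obtain ⟨E, hE⟩ : ∃ E, E = M * unCard k d e * k ^ d * q ^ (w - 1) := ⟨_, rfl⟩
  obtain ⟨c, hc⟩ : ∃ c : ℝ, c = 3 * Real.log 2 + 5 * Real.log M +
      2 * ((d : ℝ) * (d + k ^ e + e + 2)) * Real.log k + 2 * (w - 1) * Real.log q := ⟨_, rfl⟩
  have hc0 : 0 ≤ c := by rw [hc]; positivity
  have hM' : (0 : ℝ) < M := by exact_mod_cast (by omega : 0 < M)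
  have hq' : (0 : ℝ) < q := by exact_mod_cast hq
  have hk' : (0 : ℝ) < k := by exact_mod_cast hk1
  have hun : unCard k d e ≤ 2 * k ^ (d * (d + k ^ e + e + 1)) := by
    unfold unCard
    have h1 : k ^ (d ^ 2 + d) ≤ k ^ (d * (d + k ^ e + e + 1)) := by
      apply Nat.pow_le_pow_right hk1
      have : d * (d + k ^ e + e + 1) = d ^ 2 + d + (d * k ^ e + d * e) := by ring
      omega
    have h2 : k ^ (e * d + d * k ^ e) ≤ k ^ (d * (d + k ^ e + e + 1)) := by
      apply Nat.pow_le_pow_right hk1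
      have : d * (d + k ^ e + e + 1) = (e * d + d * k ^ e) + (d ^ 2 + d) := by ring
      omega
    omega
  have hun0 : 1 ≤ unCard k d e := by
    unfold unCard
    have : 1 ≤ k ^ (d ^ 2 + d) := Nat.one_le_pow _ _ hk1
    omega
  have hun' : (0 : ℝ) < unCard k d e := by exact_mod_cast hun0
  have hEpos : (0 : ℝ) < E := by
    rw [hE]
    push_cast
    positivity
  have hlun : Real.log (unCard k d e) ≤ Real.log 2 + (d : ℝ) * (d + k ^ e + e + 1) * Real.log k := by
    have h1 : ((unCard k d e : ℕ) : ℝ) ≤ 2 * (k : ℝ) ^ (d * (d + k ^ e + e + 1)) := by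
      exact_mod_cast hun
    have h2 := Real.log_le_log hun' h1
    rw [Real.log_mul (by norm_num) (by positivity), Real.log_pow] at h2
    push_cast at h2
    linarith
  have hcE : Real.log (2 * M ^ 3 * E ^ 2) ≤ c := by
    have h1 : Real.log (2 * (M : ℝ) ^ 3 * (E : ℝ) ^ 2) = Real.log 2 + 5 * Real.log M +
        2 * Real.log (unCard k d e) + 2 * (d * Real.log k) + 2 * ((w - 1) * Real.log q) := by
      rw [hE]
      push_cast
      rw [Real.log_mul (by positivity) (by positivity),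
        Real.log_mul (by positivity) (by positivity),
        Real.log_pow, Real.log_pow, Real.log_mul (by positivity) (by positivity),
        Real.log_mul (by positivity) (by positivity), Real.log_mul (by positivity) (by positivity),
        Real.log_pow, Real.log_pow, hw']
      push_cast
      ring
    rw [h1, hc]
    nlinarith
  have h1 : ∀ i ∈ I, (49 / 600 - δ) * Fintype.card T * Real.log 2
      ≤ ∑ ω, μ ω * (Real.log 2 + c * ((C ω).circ.reads i : ℝ)) := by
    intro i hi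
    obtain ⟨A, r, Q, R, hA, hQA, hQ, hP, hf⟩ := h i hi
    obtain ⟨y, hy⟩ : ∃ y : {d // d ∈ A} → D i, y = fun v => v.1 := ⟨_, rfl⟩
    choose S hS1 hS2 using fun ω =>
      Circuit.subfunctions he I i hi y s M E hq hM.ge (by rw [hE, hk]) (C ω) (hs ω)
    refine (gen_err μ hμ (fun ω => (C ω).eval) P f hF i y S (fun ω z => hS2 ω z) r
      (fun t z => ⟨Q t z, hQA t z⟩) (fun t z z' hz => Subtype.ext (hQ t z z' hz)) R
      (fun t z => by rw [hy]; exact hP t z) δ (by rw [hy]; exact hf)).trans ?_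
    apply sum_le_sum
    intro ω _
    apply mul_le_mul_of_nonneg_left _ (hμ.nonneg ω)
    have hne : 1 ≤ (S ω).card := card_pos.2 ⟨_, hS2 ω (R (fun _ => false))⟩
    have h2 : ((S ω).card : ℝ) ≤ 2 * (2 * (M : ℝ) ^ 3 * (E : ℝ) ^ 2) ^ (C ω).circ.reads i := by
      exact_mod_cast hS1 ω
    have h4 := Real.log_le_log (by exact_mod_cast hne) h2
    rw [Real.log_mul (by norm_num) (by positivity), Real.log_pow] at h4
    have h9 := mul_le_mul_of_nonneg_left hcE (Nat.cast_nonneg (α := ℝ) ((C ω).circ.reads i))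
    linarith
  have h2 := sum_le_sum h1
  rw [sum_const, nsmul_eq_mul, sum_comm] at h2
  have h3 : ∑ ω, ∑ i ∈ I, μ ω * (Real.log 2 + c * ((C ω).circ.reads i : ℝ)) ≤
      I.card * Real.log 2 + c * s := by
    have e1 : (I.card : ℝ) * Real.log 2 + c * s =
        ∑ ω, μ ω * (I.card * Real.log 2 + c * s) := by
      rw [← sum_mul, hμ.sum_one, one_mul]
    rw [e1]
    apply sum_le_sum
    intro ω _
    rw [← mul_sum]
    apply mul_le_mul_of_nonneg_left _ (hμ.nonneg ω)
    rw [sum_add_distrib, sum_const, nsmul_eq_mul, ← mul_sum]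
    have h5 : ∑ i ∈ I, ((C ω).circ.reads i : ℝ) ≤ s := by
      have h8 : ∑ i ∈ I, (C ω).circ.reads i ≤ s :=
        (Circ.sum_reads_le I (C ω).circ).trans (hs ω)
      exact_mod_cast h8
    have h7 := mul_le_mul_of_nonneg_left h5 hc0
    linarith
  have h4 := h2.trans h3
  have h7 : (3 + 5 * Real.logb 2 M + 2 * ((d : ℝ) * (d + k ^ e + e + 2)) * Real.logb 2 k +
      2 * (w - 1) * Real.logb 2 q) * s * Real.log 2 = c * s := by
    rw [hc, Real.logb, Real.logb, Real.logb]
    field_simp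
  have h5 : (I.card : ℝ) * ((49 / 600 - δ) * Fintype.card T - 1) * Real.log 2 ≤
      (3 + 5 * Real.logb 2 M + 2 * ((d : ℝ) * (d + k ^ e + e + 2)) * Real.logb 2 k +
        2 * (w - 1) * Real.logb 2 q) * s * Real.log 2 := by
    rw [h7]
    linarith
  exact le_of_mul_le_mul_right h5 h6

end Pool.Agent.N452.FF
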