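import Pool.Agent.N452.FF.Lower
import Pool.Agent.N452.TF.Xor
import Pool.Agent.N452.TF.Build

set_option autoImplicit false

/-! # Products `u_iᵀ M v_i` over `ZMod 2`, and circuits over finite fields -/

namespace Pool.Agent.N452.FF.Xor

open Finset Pool.Agent.TH697.Form Pool.Agent.TH697.Row
open Pool.Agent.Y638.RF.Xor (Item product asks)
open Pool.Agent.N452.TF.Xor (pairs)
open Pool.Agent.N452.TF (Leaf Ext)

variable {n c w d e : ℕ}

theorem bound {K : Type} [Field K] [Fintype K] [DecidableEq K]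
    (hn : 32 ≤ n) (hc : 1 ≤ c) (hw : 1 ≤ w) (he : 1 ≤ e) {Ω : Type} [Fintype Ω]
    (μ : Ω → ℝ) (hμ : IsProb μ) (s : ℕ)
    (C : Ω → Circuit K (Option (Fin n)) (Item n) w (2 ^ c) d e)
    (hs : ∀ ω, (C ω).circ.cost (pairs n) ≤ s)
    (hF : ApproximatesOn μ (fun ω => (C ω).eval) (fun _ => True) (product n)) :
    (n : ℝ) ^ 3 ≤ 300 * (w * c + Real.logb 2 n +
      d * (d + (Fintype.card K : ℝ) ^ e) * Real.logb 2 (Fintype.card K)) * s := by
  classical
  have hw' : (1 : ℝ) ≤ w := by exact_mod_cast hw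
  have hc' : (1 : ℝ) ≤ c := by exact_mod_cast hc
  have hs0 : (0 : ℝ) ≤ s := Nat.cast_nonneg s
  have hn' : (32 : ℝ) ≤ n := by exact_mod_cast hn
  obtain ⟨k, hk⟩ : ∃ k, k = Fintype.card K := ⟨_, rfl⟩
  have hk1 : 2 ≤ k := by
    rw [hk]
    exact Fintype.one_lt_card
  have hk' : (2 : ℝ) ≤ k := by exact_mod_cast hk1
  have hlk : 0 ≤ Real.logb 2 (k : ℝ) := Real.logb_nonneg (by norm_num) (by linarith)
  have hd0 : (0 : ℝ) ≤ d := Nat.cast_nonneg d
  have hke : (2 : ℝ) ≤ (k : ℝ) ^ e := by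
    calc (2 : ℝ) ≤ k := hk'
      _ = (k : ℝ) ^ 1 := (pow_one _).symm
      _ ≤ (k : ℝ) ^ e := pow_le_pow_right₀ (by linarith) he
  have hee : (e : ℝ) ≤ (k : ℝ) ^ e := by
    have h1 : e < 2 ^ e := Nat.lt_two_pow_self
    have h2 : 2 ^ e ≤ k ^ e := Nat.pow_le_pow_left hk1 e
    exact_mod_cast (h1.le.trans h2)
  obtain ⟨l, hl⟩ : ∃ l, l = Real.logb 2 (n : ℝ) := ⟨_, rfl⟩
  have hl5 : 5 ≤ l := by
    rw [hl, Real.le_logb_iff_rpow_le (by norm_num) (by linarith)]
    calc (2 : ℝ) ^ (5 : ℝ) = 2 ^ (5 : ℕ) := by norm_cast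
      _ = 32 := by norm_num
      _ ≤ n := hn'
  obtain ⟨X, hX⟩ : ∃ X, X = d * (d + (k : ℝ) ^ e) * Real.logb 2 k := ⟨_, rfl⟩
  have hX0 : 0 ≤ X := by
    rw [hX]
    positivity
  rw [← hk, ← hl, ← hX]
  have hY : (1 : ℝ) ≤ w * c + l + X := by nlinarith
  by_cases hsn : n ^ 3 ≤ s
  · have h1 : (n : ℝ) ^ 3 ≤ s := by exact_mod_cast hsn
    nlinarith
  have h := circuit_lower μ hμ s C (fun _ => True) (product n) hF he Nat.one_le_two_pow
    hw (n ^ 2) 0 (pairs n) hs (T := Fin n × Fin n) (by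
      intro a ha
      unfold pairs at ha
      rw [mem_map] at ha
      obtain ⟨i, -, rfl⟩ := ha
      exact asks i)
  unfold pairs at h
  rw [card_map, card_univ, Fintype.card_fin, Pool.Agent.TH457.Ary.OuMv.card_T] at h
  rw [← hk] at h
  have hls : Real.logb 2 ((2 + s : ℕ) : ℝ) ≤ 4 * l := by
    have h1 : 2 + s ≤ n ^ 4 := by
      have h2 : n ^ 3 + 1 ≤ n ^ 4 := by
        have h3 : n ^ 4 = n * n ^ 3 := by ring
        have h4 : 1 ≤ n ^ 3 := Nat.one_le_pow _ _ (by omega)
        rw [h3]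
        nlinarith
      omega
    have h2 : ((2 + s : ℕ) : ℝ) ≤ (n : ℝ) ^ 4 := by exact_mod_cast h1
    have h3 := Real.logb_le_logb_of_le (by norm_num : (1 : ℝ) < 2) (by positivity) h2
    rw [Real.logb_pow, ← hl] at h3
    have h4 : ((4 : ℕ) : ℝ) = 4 := by norm_num
    rw [h4] at h3
    exact h3
  have hq : Real.logb 2 ((2 ^ c : ℕ) : ℝ) = c := by
    push_cast
    exact Pool.Agent.TH457.Ary.OuMv.logb_two_pow' c
  rw [hq] at h
  have h2 := Pool.Agent.N452.TF.mul_sub_one_le (a := (n : ℝ)) (b := (n : ℝ) ^ 2) (by nlinarith)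
    (by linarith)
  have h4 : (n : ℝ) * (n : ℝ) ^ 2 = (n : ℝ) ^ 3 := by ring
  rw [h4] at h2
  have h5 : 3 + 5 * Real.logb 2 ((2 + s : ℕ) : ℝ) +
      2 * ((d : ℝ) * (d + k ^ e + e + 2)) * Real.logb 2 k + 2 * (w - 1) * c ≤
      21 * (w * c + l + X) := by
    have h6 : (d : ℝ) * (d + k ^ e + e + 2) * Real.logb 2 k ≤ 3 * X := by
      have h7 : (d : ℝ) * (d + k ^ e + e + 2) ≤ d * (3 * (d + (k : ℝ) ^ e)) :=
        mul_le_mul_of_nonneg_left (by linarith) hd0
      have h8 := mul_le_mul_of_nonneg_right h7 hlk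
      calc _ ≤ _ := h8
        _ = 3 * X := by rw [hX]; ring
    have h7 : 2 * ((d : ℝ) * (d + k ^ e + e + 2)) * Real.logb 2 k =
        2 * ((d : ℝ) * (d + k ^ e + e + 2) * Real.logb 2 k) := by ring
    rw [h7]
    have h8 : 0 ≤ (w : ℝ) * c := by positivity
    nlinarith
  have h9 := mul_le_mul_of_nonneg_right h5 hs0
  push_cast at h h9
  nlinarith

/-! ## Circuits over `ZMod 2` -/

section up

variable {ι : Type} {D : ι → Type} {K : Type} [Field K] [DecidableEq K] {w q d e : ℕ}

/-- sums -/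
theorem exists_sum {κ : Type} (s : Finset κ) (G : κ → Fml K ι D w q d e) :
    ∃ F : Fml K ι D w q d e, (∀ x j, F.eval x j = ∑ p ∈ s, (G p).eval x j) ∧
      ∀ c, F.size c = ∑ p ∈ s, (G p).size c := by
  classical
  induction s using Finset.induction_on with
  | empty =>
    refine ⟨.const (fun _ => 0), fun x j => ?_, fun c => ?_⟩
    · simp [Fml.eval]
    · simp [Fml.size]
  | insert p s hp ih =>
    obtain ⟨F, h1, h2⟩ := ih
    refine ⟨.add (G p) F, fun x j => ?_, fun c => ?_⟩
    · rw [sum_insert hp]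
      simp only [Fml.eval, h1]
    · rw [sum_insert hp]
      simp only [Fml.size, h2]

omit [Field K] [DecidableEq K] in
open Classical in
theorem price_nil (I : Finset ι) (i : ι) :
    (Circ.nil : Circ K ι D w q d e 0).price I (Sum.inl i) = if i ∈ I then 1 else 0 := by
  unfold Circ.price
  have h : I.filter (fun k => Sum.inl i ∈ (Circ.nil : Circ K ι D w q d e 0).Dep k) =
      if i ∈ I then {i} else ∅ := by
    ext k
    rw [mem_filter]
    have h2 : Sum.inl i ∈ (Circ.nil : Circ K ι D w q d e 0).Dep k ↔ i = k := by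
      constructor
      · intro h
        exact Sum.inl.inj h
      · rintro rfl
        exact rfl
    rw [h2]
    split_ifs with h3
    · rw [mem_singleton]
      constructor
      · rintro ⟨-, rfl⟩
        rfl
      · rintro rfl
        exact ⟨h3, rfl⟩
    · constructor
      · rintro ⟨h4, rfl⟩
        exact absurd h4 h3
      · intro h4
        exact absurd h4 (notMem_empty _)
  rw [h]
  split_ifs <;> simp

/-- A circuit without shared bits which consists of one formula. -/
theorem exists_circuit_of_fml (F : Fml K (ι ⊕ Fin 0) (Ext D 0) w q d e) (I : Finset ι) :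
    ∃ C : Circuit K ι D w q d e, C.bits = 0 ∧
      C.circ.cost I = F.size ((Circ.nil : Circ K ι D w q d e 0).price I) + 1 ∧
      ∀ x, C.eval x = F.accepts (Pool.Agent.N452.TF.ext x
        ((Circ.nil : Circ K ι D w q d e 0).val x)) := by
  refine ⟨⟨0, Circ.snoc Circ.nil ⟨1, BP.node BP.sinks F 0 1, Fin.last _⟩⟩, rfl, ?_, fun x => ?_⟩
  · simp only [Circ.cost, BP.size, zero_add]
  · unfold Circuit.eval
    simp only [Circ.val, Fin.lastCases_last, Program.eval, BP.val]
    cases F.accepts (Pool.Agent.N452.TF.ext x ((Circ.nil : Circ K ι D w q d e 0).val x)) <;> simp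

end up

/-- cutting a range into blocks of length `d` -/
theorem sum_blocks {R : Type} [AddCommMonoid R] {n d : ℕ} (hd : 1 ≤ d) (g : ℕ → R)
    (hg : ∀ k, n ≤ k → g k = 0) :
    ∑ a : Fin (n / d + 1), ∑ t : Fin d, g (t.val + d * a.val) = ∑ k : Fin n, g k := by
  have h2 : ∑ a : Fin (n / d + 1), ∑ t : Fin d, g (t.val + d * a.val) =
      ∑ k : Fin ((n / d + 1) * d), g k.val := by
    rw [← Fintype.sum_prod_type' (f := fun (a : Fin (n / d + 1)) (t : Fin d) =>
      g (t.val + d * a.val))]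
    rw [← Equiv.sum_comp finProdFinEquiv (fun k : Fin ((n / d + 1) * d) => g k.val)]
    rfl
  have h3 : n ≤ (n / d + 1) * d := by
    have h4 := Nat.lt_succ_iff.1 (Nat.lt_succ_of_lt (Nat.lt_mul_div_succ n hd))
    calc n ≤ d * (n / d + 1) := h4
      _ = (n / d + 1) * d := mul_comm _ _
  rw [h2, Fin.sum_univ_eq_sum_range, Fin.sum_univ_eq_sum_range]
  symm
  apply sum_subset
  · intro k hk
    rw [mem_range] at hk ⊢
    omega
  · intro k _ hk
    rw [mem_range] at hk
    exact hg k (by omega)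

theorem sum_blocks₂ {R : Type} [AddCommMonoid R] {n d : ℕ} (hd : 1 ≤ d) (g : ℕ → ℕ → R)
    (hg : ∀ k j, n ≤ k ∨ n ≤ j → g k j = 0) :
    ∑ a : Fin (n / d + 1), ∑ c : Fin (n / d + 1), ∑ t : Fin d, ∑ t' : Fin d,
      g (t.val + d * a.val) (t'.val + d * c.val) = ∑ k : Fin n, ∑ j : Fin n, g k j := by
  have h1 : ∀ a : Fin (n / d + 1), ∑ c : Fin (n / d + 1), ∑ t : Fin d, ∑ t' : Fin d,
      g (t.val + d * a.val) (t'.val + d * c.val) =
      ∑ t : Fin d, ∑ j : Fin n, g (t.val + d * a.val) j := by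
    intro a
    rw [sum_comm]
    refine sum_congr rfl fun t _ => ?_
    exact sum_blocks hd (fun j => g (t.val + d * a.val) j) (fun j hj => hg _ _ (Or.inr hj))
  rw [sum_congr rfl (fun a _ => h1 a)]
  exact sum_blocks hd (fun k => ∑ j : Fin n, g k j)
    (fun k hk => sum_eq_zero fun j _ => hg _ _ (Or.inl hk))

/-- an entry of a vector, or zero -/
def ent (v : Fin n → ZMod 2) (k : ℕ) : ZMod 2 := if h : k < n then v ⟨k, h⟩ else 0

/-- an entry of a matrix, or zero -/
def ent₂ (M : Fin n → Fin n → ZMod 2) (k j : ℕ) : ZMod 2 :=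
  if h : k < n then ent (M ⟨k, h⟩) j else 0

/-- one block of the product for the pair `i` -/
def blk (w q d e : ℕ) (i : Fin n) (p : Fin (n / d + 1) × Fin (n / d + 1)) :
    Fml (ZMod 2) (Option (Fin n) ⊕ Fin 0) (Ext (Item n) 0) w q d e :=
  .bil (fun a c j => if a = c ∧ j.val = 0 then 1 else 0)
    (.leaf (.item (Sum.inl (some i))
      (fun (v : (Fin n → ZMod 2) × (Fin n → ZMod 2)) t => ent v.1 (t.val + d * p.1.val))))
    (.act (.item (Sum.inl none) (fun (M : Fin n → Fin n → ZMod 2) t t' =>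
      ent₂ M (t.val + d * p.1.val) (t'.val + d * p.2.val)))
    (.leaf (.item (Sum.inl (some i))
      (fun (v : (Fin n → ZMod 2) × (Fin n → ZMod 2)) t => ent v.2 (t.val + d * p.2.val)))))

theorem blk_eval (w q d e : ℕ) (i : Fin n) (p : Fin (n / d + 1) × Fin (n / d + 1))
    (x : ∀ i, Item n i) (b : Fin 0 → Bool) (j : Fin d) :
    (blk w q d e i p).eval (Pool.Agent.N452.TF.ext x b) j = if j.val = 0 then
      ∑ t : Fin d, ∑ t' : Fin d, ent (x (some i)).1 (t.val + d * p.1.val) *
        (ent₂ (x none) (t.val + d * p.1.val) (t'.val + d * p.2.val) *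
          ent (x (some i)).2 (t'.val + d * p.2.val)) else 0 := by
  have h2 : (blk w q d e i p).eval (Pool.Agent.N452.TF.ext x b) j = ∑ a : Fin d, ∑ c : Fin d,
      (if a = c ∧ j.val = 0 then (1 : ZMod 2) else 0) *
      (ent (x (some i)).1 (a.val + d * p.1.val) *
        ∑ t' : Fin d, ent₂ (x none) (c.val + d * p.1.val) (t'.val + d * p.2.val) *
          ent (x (some i)).2 (t'.val + d * p.2.val)) := rfl
  rw [h2]
  by_cases hj : j.val = 0
  · rw [if_pos hj]
    refine sum_congr rfl fun a _ => ?_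
    rw [sum_eq_single a]
    · rw [if_pos ⟨rfl, hj⟩, one_mul, mul_sum]
    · intro c _ hc
      rw [if_neg (fun h => hc h.1.symm), zero_mul]
    · intro h
      exact absurd (mem_univ _) h
  · rw [if_neg hj]
    apply sum_eq_zero
    intro a _
    apply sum_eq_zero
    intro c _
    rw [if_neg (fun h => hj h.2), zero_mul]

/-- Circuits of dimension `d` over `ZMod 2`: one formula in which every pair is read
`2 (n / d + 1) ^ 2` times. -/
theorem upper (n w q d e : ℕ) (hd : 1 ≤ d) :
    ∃ C : Circuit (ZMod 2) (Option (Fin n)) (Item n) w q d e,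
      C.bits = 0 ∧ C.circ.cost (pairs n) ≤ 2 * n * (n / d + 1) ^ 2 + n + 1 ∧
        ∀ x, C.eval x = product n x := by
  choose F h1 h2 using fun i : Fin n =>
    exists_sum (univ : Finset (Fin (n / d + 1) × Fin (n / d + 1))) (blk w q d e i)
  obtain ⟨C, h3, h4, h5⟩ := exists_circuit_of_fml
    (.sym n (fun _ j => if j.val = 0 then 1 else 0)
      (fun m j => if 0 < m ∧ j.val = 0 then 1 else 0) F) (pairs n)
  have hsum0 : ∀ g : Fin d → ZMod 2, ∑ j, (if j.val = 0 then 1 else 0) * g j = g ⟨0, hd⟩ := by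
    intro g
    rw [sum_eq_single (⟨0, hd⟩ : Fin d)]
    · rw [if_pos rfl, one_mul]
    · intro j _ hj
      rw [if_neg, zero_mul]
      intro h
      exact hj (Fin.ext h)
    · intro h
      exact absurd (mem_univ _) h
  refine ⟨C, h3, ?_, fun x => ?_⟩
  · rw [h4]
    simp only [Fml.size, h2]
    have h6 : ∀ (i : Fin n) (p : Fin (n / d + 1) × Fin (n / d + 1)),
        (blk w q d e i p).size ((Circ.nil : Circ (ZMod 2) (Option (Fin n)) (Item n) w q d e
          0).price (pairs n)) ≤ 2 := by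
      intro i p
      simp only [blk, Fml.size, Leaf.size]
      rw [price_nil, price_nil]
      have h7 : (none : Option (Fin n)) ∉ pairs n := by
        unfold pairs
        simp
      rw [if_neg h7]
      split_ifs <;> omega
    have h7 := sum_le_sum (s := univ) (fun i (_ : i ∈ univ) =>
      sum_le_sum (s := univ) (fun p (_ : p ∈ univ) => h6 i p))
    simp only [sum_const, card_univ, Fintype.card_prod, Fintype.card_fin, smul_eq_mul] at h7
    have h8 : n * ((n / d + 1) * (n / d + 1) * 2) = 2 * n * (n / d + 1) ^ 2 := by ring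
    omega
  · rw [h5]
    unfold Fml.accepts product
    rw [Bool.eq_iff_iff, decide_eq_true_iff, decide_eq_true_iff]
    simp only [Fml.eval]
    have h9 : ∀ i : Fin n, (F i).eval (Pool.Agent.N452.TF.ext x
        ((Circ.nil : Circ (ZMod 2) (Option (Fin n)) (Item n) w q d e 0).val x)) ⟨0, hd⟩ =
        ∑ j : Fin n, ∑ k : Fin n, (x (some i)).1 j * (x none) j k * (x (some i)).2 k := by
      intro i
      rw [h1]
      simp only [blk_eval, if_true]
      rw [Fintype.sum_prod_type]
      simp only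
      rw [sum_blocks₂ hd (fun k j => ent (x (some i)).1 k * (ent₂ (x none) k j *
        ent (x (some i)).2 j))]
      · refine sum_congr rfl fun k _ => sum_congr rfl fun j _ => ?_
        simp only [ent, ent₂, k.2, j.2, dif_pos]
        ring
      · rintro k j (h | h)
        · simp only [ent]
          rw [dif_neg (by omega), zero_mul]
        · simp only [ent]
          rw [dif_neg (show ¬ j < n by omega), mul_zero, mul_zero]
    simp only [hsum0, h9]
    have h10 : ∀ N : ℕ, ∑ j : Fin d, (if 0 < N ∧ j.val = 0 then (1 : ZMod 2) else 0) =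
        if 0 < N then 1 else 0 := by
      intro N
      rw [sum_eq_single (⟨0, hd⟩ : Fin d)]
      · simp
      · intro j _ hj
        rw [if_neg]
        rintro ⟨-, h⟩
        exact hj (Fin.ext h)
      · intro h
        exact absurd (mem_univ _) h
    rw [h10]
    have h11 : ∀ y : ZMod 2, y ≠ 0 ↔ y = 1 := by decide
    simp only [h11]
    constructor
    · intro h
      split_ifs at h with h12
      · obtain ⟨i, hi⟩ := card_pos.1 h12
        exact ⟨i, (mem_filter.1 hi).2⟩
      · exact absurd h (by decide)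
    · rintro ⟨i, hi⟩
      rw [if_pos]
      exact card_pos.2 ⟨i, mem_filter.2 ⟨mem_univ _, hi⟩⟩

end Pool.Agent.N452.FF.Xor
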