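import Pool.Agent.N452.FF.Lower
import Pool.Agent.N452.TF.ThreeSum

set_option autoImplicit false

/-! # 3SUM and circuits over finite fields -/

namespace Pool.Agent.N452.FF.ZeroSum

open Finset Pool.Agent.TH697.Form Pool.Agent.TH697.Row Pool.Agent.TH697.Form.ThreeSum
open Pool.Agent.TH457.Ary.ZeroSum Pool.Agent.TH457.Ary.ThreeSum Pool.Agent.Y638.RF
open Pool.Agent.N452.TF.Xor (pairs)

variable {n c w d e : ℕ}

/-- the arithmetic -/
theorem arith {n g c w N L l X a s : ℝ} (hn : 1000 ≤ n) (hg : 8 ≤ g) (hc : 1 ≤ c) (hw : 1 ≤ w)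
    (hN : n * g / 7 ≤ N) (hgl : g ≤ l) (hl : l ≤ 9 / 8 * g) (hL : L ≤ 4 / 3 * c * g)
    (hX : 0 ≤ X) (ha : a ≤ 3 * l) (hs : 0 ≤ s)
    (h : n * ((49 / 600 - 0) * N - 1) ≤ (3 + 5 * a + 6 * X + 2 * (w - 1) * L) * s) :
    n ^ 2 * l ≤ 2100 * (w * c * l + X) * s := by
  have hl0 : 0 ≤ l := by linarith
  have h0 : 1000 * g ≤ n * g := mul_le_mul_of_nonneg_right hn (by linarith)
  have h1 : n * g / 90 ≤ (49 / 600 - 0) * N - 1 := by linarith
  have h2 : n * (n * g / 90) ≤ n * ((49 / 600 - 0) * N - 1) :=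
    mul_le_mul_of_nonneg_left h1 (by linarith)
  have h3 : 3 + 5 * a + 6 * X + 2 * (w - 1) * L ≤ 20 * (w * c * g + X) := by
    have h4 : (w - 1) * L ≤ (w - 1) * (4 / 3 * c * g) := mul_le_mul_of_nonneg_left hL (by linarith)
    have h7 : g ≤ c * g := by nlinarith
    have h8 : 0 ≤ c * g := by positivity
    have h9 : c * g ≤ w * (c * g) := by nlinarith
    have h10 : (w - 1) * (4 / 3 * c * g) ≤ 4 / 3 * (w * (c * g)) - 4 / 3 * (c * g) := by
      have : (w - 1) * (4 / 3 * c * g) = 4 / 3 * (w * (c * g)) - 4 / 3 * (c * g) := by ring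
      rw [this]
    have h11 : 5 * a ≤ 135 / 8 * g := by linarith
    have e : w * c * g = w * (c * g) := by ring
    rw [e]
    nlinarith
  have h4 := mul_le_mul_of_nonneg_right h3 hs
  have h5 : w * c * g ≤ w * c * l := mul_le_mul_of_nonneg_left hgl (by positivity)
  have h6 : n ^ 2 * l ≤ 9 / 8 * (n ^ 2 * g) := by nlinarith [sq_nonneg n]
  have h7 : n * (n * g / 90) = n ^ 2 * g / 90 := by ring
  rw [h7] at h2
  have h8 : 20 * (w * c * g + X) * s ≤ 20 * (w * c * l + X) * s :=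
    mul_le_mul_of_nonneg_right (by linarith) hs
  have h9 : 0 ≤ (w * c * l + X) * s := mul_nonneg (by positivity) hs
  nlinarith

theorem bound {K : Type} [Field K] [Fintype K] [DecidableEq K]
    (hn : 1000 ≤ n) (hc : 1 ≤ c) (hw : 1 ≤ w) (he : 1 ≤ e)
    {Ω : Type} [Fintype Ω] (μ : Ω → ℝ) (hμ : IsProb μ) (s : ℕ)
    (C : Ω → Circuit K (Option (Fin n)) (Item n n) w ((2 * n) ^ c) d e)
    (hs : ∀ ω, (C ω).circ.cost (pairs n) ≤ s)
    (hF : ApproximatesOn μ (fun ω => (C ω).eval) (Valid n n) (zeroSum n)) :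
    (n : ℝ) ^ 2 * Real.logb 2 n ≤ 2100 * (w * c * Real.logb 2 n +
      d * (d + (Fintype.card K : ℝ) ^ e) * Real.logb 2 (Fintype.card K)) * s := by
  classical
  have hw' : (1 : ℝ) ≤ w := by exact_mod_cast hw
  have hc' : (1 : ℝ) ≤ c := by exact_mod_cast hc
  have hs0 : (0 : ℝ) ≤ s := Nat.cast_nonneg s
  obtain ⟨k, hk⟩ : ∃ k, k = Fintype.card K := ⟨_, rfl⟩
  have hk1 : 2 ≤ k := by
    rw [hk]
    exact Fintype.one_lt_card
  have hk' : (2 : ℝ) ≤ k := by exact_mod_cast hk1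
  have hlk : 0 ≤ Real.logb 2 (k : ℝ) := Real.logb_nonneg (by norm_num) (by linarith)
  have hd0 : (0 : ℝ) ≤ d := Nat.cast_nonneg d
  have hke : (2 : ℝ) ≤ (k : ℝ) ^ e := by
    calc (2 : ℝ) ≤ k := hk'
      _ = (k : ℝ) ^ 1 := (pow_one _).symm
      _ ≤ (k : ℝ) ^ e := pow_le_pow_right₀ (by linarith) he
  have hee : (e : ℝ) ≤ (k : ℝ) ^ e := by
    have h1 : e < 2 ^ e := Nat.lt_two_pow_self
    have h2 : 2 ^ e ≤ k ^ e := Nat.pow_le_pow_left hk1 e
    exact_mod_cast (h1.le.trans h2)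
  obtain ⟨X, hX⟩ : ∃ X, X = d * (d + (k : ℝ) ^ e) * Real.logb 2 k := ⟨_, rfl⟩
  have hX0 : 0 ≤ X := by
    rw [hX]
    positivity
  rw [← hk, ← hX]
  have hl0 : 0 ≤ Real.logb 2 (n : ℝ) :=
    Real.logb_nonneg (by norm_num) (by exact_mod_cast (by omega : 1 ≤ n))
  by_cases hsn : n ^ 2 ≤ s
  · have h1 : (n : ℝ) ^ 2 ≤ s := by exact_mod_cast hsn
    have h2 : (1 : ℝ) ≤ w * c := by nlinarith
    have h3 : Real.logb 2 (n : ℝ) ≤ w * c * Real.logb 2 n + X := by nlinarith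
    have h4 : (n : ℝ) ^ 2 * Real.logb 2 n ≤ s * Real.logb 2 n :=
      mul_le_mul_of_nonneg_right h1 hl0
    have h5 : s * Real.logb 2 n ≤ s * (w * c * Real.logb 2 n + X) :=
      mul_le_mul_of_nonneg_left h3 hs0
    have h6 : 0 ≤ s * (w * c * Real.logb 2 n + X) := mul_nonneg hs0 (hl0.trans h3)
    linarith
  obtain ⟨b, hb, hL, hb2⟩ := params (n := n) (by omega)
  have h := circuit_lower μ hμ s C (Valid n n) (zeroSum n) hF he
    (Nat.one_le_pow _ _ (by omega)) hw (n ^ 2) 0 (pairs n) hs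
    (T := Fin (n / 2) × Fin b) (by
      intro a ha
      unfold pairs at ha
      rw [mem_map] at ha
      obtain ⟨i, -, rfl⟩ := ha
      exact Pool.Agent.Y638.RF.ZeroSum.asks hb (by omega) i)
  unfold pairs at h
  rw [card_map, card_univ, Fintype.card_fin, ← hk] at h
  have hls : Real.logb 2 ((2 + s : ℕ) : ℝ) ≤ 3 * Real.logb 2 n := by
    have h1 : 2 + s ≤ n ^ 3 := by
      have h2 : n ^ 2 + 1 ≤ n ^ 3 := by
        have h3 : n ^ 3 = n * n ^ 2 := by ring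
        have h4 : 1 ≤ n ^ 2 := Nat.one_le_pow _ _ (by omega)
        rw [h3]
        nlinarith
      omega
    have h2 : ((2 + s : ℕ) : ℝ) ≤ (n : ℝ) ^ 3 := by exact_mod_cast h1
    have h3 := Real.logb_le_logb_of_le (by norm_num : (1 : ℝ) < 2) (by positivity) h2
    rw [Real.logb_pow] at h3
    have h4 : ((3 : ℕ) : ℝ) = 3 := by norm_num
    rw [h4] at h3
    exact h3
  have hXX : 2 * ((d : ℝ) * (d + k ^ e + e + 2)) * Real.logb 2 k ≤ 6 * X := by
    have h7 : (d : ℝ) * (d + k ^ e + e + 2) ≤ d * (3 * (d + (k : ℝ) ^ e)) :=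
      mul_le_mul_of_nonneg_left (by linarith) hd0
    have h8 := mul_le_mul_of_nonneg_right h7 hlk
    calc 2 * ((d : ℝ) * (d + k ^ e + e + 2)) * Real.logb 2 k
        = 2 * ((d : ℝ) * (d + k ^ e + e + 2) * Real.logb 2 k) := by ring
      _ ≤ 2 * (d * (3 * (d + (k : ℝ) ^ e)) * Real.logb 2 k) := by linarith
      _ = 6 * X := by rw [hX]; ring
  refine arith (l := Real.logb 2 n) (L := Real.logb 2 (((2 * n) ^ c : ℕ) : ℝ))
    (g := Nat.log 2 n) (N := ((Fintype.card (Fin (n / 2) × Fin b) : ℕ) : ℝ))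
    (a := Real.logb 2 ((2 + s : ℕ) : ℝ))
    (by exact_mod_cast hn) (by exact_mod_cast hL) hc' hw' (card_T (by omega) hb2) ?_ ?_
    (logb_q (by omega) hL) hX0 hls hs0 ?_
  · rw [Real.le_logb_iff_rpow_le (by norm_num) (by exact_mod_cast (by omega : 0 < n)),
      Real.rpow_natCast]
    exact_mod_cast Nat.pow_log_le_self 2 (by omega : n ≠ 0)
  · have h1 := logb_n (n := n) (by omega)
    have hL' : (8 : ℝ) ≤ Nat.log 2 n := by exact_mod_cast hL
    linarith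
  · refine h.trans ?_
    apply mul_le_mul_of_nonneg_right _ hs0
    linarith

end Pool.Agent.N452.FF.ZeroSum
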